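import Pool.Agent.R887.ImgE

/-!
Canonical divisors of the varieties, of any dimension, which are dominated by a variety with finite
multi-valued maps of large degree from a fixed variety: their numerical dimension is at most zero.
-/

set_option autoImplicit false

open FF Pool.Agent.W602.GT Pool.Agent.Y172 Pool.Agent.R887

/-- Let `X'` and `X` be normal complex projective varieties of dimension `n ≥ 1`, with generic points
`y'` and `y`, `Bd'` a finite set of places of the function field of `X'` (prime divisors of `X'`), and
`Bd` a set of places of the function field of `X` (for instance both are empty, or `Bd'` consists of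
the components of the complement of an open subset `U'`, and `Bd` of the places without centre on an
open subset `U` of `X`). Suppose that for all `c > 0` there is a multi-valued map `X' ← X'' → X`, given
by homomorphisms `ψ`, `φ` of the function fields, such that the prime divisors over `X''` which lie
over prime divisors `P` of `X` lie over prime divisors `P'` of `X'`, and if `P'` is not in `Bd'`, then
`P` is not in `Bd` and there is no ramification over `P'` (for instance, a pair of finite morphisms
which are given by `U' ← U'' → U`, the first one étale in codimension one), and such that the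
intersection number of `n - 1` pull backs of hyperplane sections of `X` and one pull back of a
hyperplane section of `X'` is at most `c` times the degree of `X'' → X`.

Let `Z → X` be a finite cover by a normal projective variety with generic point `z`, unramified over
the prime divisors of `X` which are not in `Bd` (for instance `Z = X`); more precisely, prime divisors
of `Z` lie over prime divisors `P'` of `X`, and are unramified over `P'` and not in `BdM` if `P'` is not
in `Bd`. Let `Z ⇢ R` be any dominant rational map, given by a homomorphism `f` of the function fields,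
onto a normal projective variety, with generic point `w`, of any dimension `m ≥ 1`, with canonical
singularities (for instance smooth). Then

(1) the numerical dimension of `K_R` is at most `0`: the positive intersection product of `K_R` and
`m - 1` hyperplane sections is zero (so if `K_R` is pseudo-effective then it is `ℚ`-effective, by
Nakayama's theorem, which is not formalised);

(2) any two sections of `r K_R`, `r ≥ 1`, are proportional: the Kodaira dimension of `R` is at most
`0`;

(3) if `K_R` is nef then the sections `ω ≠ 0` of `r K_R`, `r ≥ 1`, have no zeros. -/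
theorem Pool.Agent.Results.MP_23b606_ag.ImagesFromSources.result
    {K' : Type} [Field K'] [Algebra ℂ K'] {N' n : ℕ} {y' : Fin (N' + 1) → K'}
    (hy' : NormalModel y') (hn' : Algebra.trdeg ℂ K' = n) (hn0 : 0 < n)
    {Bd' : Set (Place ℂ K')} (hBd' : Bd'.Finite) {K : Type} [Field K] [Algebra ℂ K] {N : ℕ}
    {y : Fin (N + 1) → K} (hy : NormalModel y) (hn : Algebra.trdeg ℂ K = n)
    {Bd : Set (Place ℂ K)}
    (h : ∀ c : ℝ, 0 < c → ∃ (L : Type) (_ : Field L) (_ : Algebra ℂ L) (φ : K →ₐ[ℂ] L)
      (ψ : K' →ₐ[ℂ] L), FiniteDimensional ψ.fieldRange L ∧ FiniteEtale φ ψ y Bd y' Bd' ∧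
        MultiDegreeLe φ ψ y y' (n - 1) 1 c)
    {M : Type} [Field M] [Algebra ℂ M] {N₁ : ℕ} {z : Fin (N₁ + 1) → M} (hz : NormalModel z)
    (hnM : Algebra.trdeg ℂ M = n) {BdM : Set (Place ℂ M)} (θ : K →ₐ[ℂ] M)
    (hθ : FiniteDimensional θ.fieldRange M) (hM : FiniteEtale (AlgHom.id ℂ M) θ z BdM y Bd)
    {F : Type} [Field F] [Algebra ℂ F] {m R : ℕ} {w : Fin (R + 1) → F} (hw : NormalModel w)
    (hm : Algebra.trdeg ℂ F = m) (hm0 : 0 < m) (hcan : Canonical w m) (f : F →ₐ[ℂ] M) :
    NumDimLt w m 0 1 ∧
    (∀ (r : ℕ) (ω ω' : (Fin m → Derivation ℂ F F) → F), 1 ≤ r → IsSection w m r 0 ω →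
      IsSection w m r 0 ω' → ω ≠ 0 → ∃ z : ℂ, ∀ E, ω' E = algebraMap ℂ F z * ω E) ∧
    (CanonicalNef w m → ∀ (r : ℕ) (ω : (Fin m → Derivation ℂ F F) → F), 1 ≤ r →
      IsSection w m r 0 ω → ω ≠ 0 → ∀ P, IsPrimeDivisor w P → OrdEq P ω 0) := by
  obtain ⟨C, hC, hC'⟩ := exists_abs hy' hn' hBd'
  have h1 : AbsTensorLe y Bd 0 := by
    refine abs_of_forall fun ε hε => ?_
    rw [zero_add]
    obtain ⟨L, _, _, φ, ψ, hψ, hfe, hc⟩ := h (ε / (C + 1)) (by positivity)
    refine (abs_step hy hn hn0 hy' hn' φ ψ hψ hfe hc hC').2.mono ?_
    rw [div_mul_eq_mul_div, div_le_iff₀ (by positivity)]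
    nlinarith
  exact img_canonical hz hnM hw hm hm0 hcan f (abs_cover hy hn hn0 h1 hz hnM θ hθ hM)
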