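import Pool.Agent.R882.TCol

/-!
# Kodaira dimension `-∞` and uniruledness for the images of nondegenerate complete intersections

Let `V` be a component, of dimension `n ≥ 1`, of the set of common zeros in the torus of a system `f`
of Laurent polynomials which is nondegenerate in the sense of Khovanskii, with arbitrary Newton
polytopes. Let `t l = x ^ (w l)`, `y = x ^ v` be monomials such that `ℂ(V) = ℂ(t)(y)` has finite degree
`b` over `ℂ(t)`, and suppose that the image `V'` of `V` under `t` is uniruled, for example
`V' = (ℂ^*) ^ n` (for hypersurfaces, one may take the projection to a coordinate hyperplane). Let `r`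
be a natural number such that for all divisors `c < b` of `b` there is a column in the Fine interior of
the Newton polytopes: an `M` with `r ≤ c (M + 1)` such that the `u + j v` and the `u + j v + M w l`
are in the Fine interior for all `j < c`. For example, if `b` is a prime number then the condition is
that `u` and the `u + (r - 1) w l` are in the Fine interior; in general it is enough that the
`u + j v` and the `u + j v + (r - 1) w l` are in the Fine interior for `j < b / 2`. For a general
hypersurface of multidegree `(e 1, ..., e n, b)` in `(ℙ ^ 1) ^ (n + 1)` the condition is that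
`e l ≥ r + 1` for all `l`, `b ≥ 2`.

Let `V ⇢ W` be any dominant rational map of degree `[ℂ(V) : ℂ(W)] = r`. The theorem says that the
following are equivalent: `p_g(W) = 0`; `κ(W) = -∞`; `K_W` is not pseudo-effective; `W` is uniruled;
`V ⇢ W` factors through `V ⇢ V'`. If the condition on the columns holds for `2 r` instead of `r` then
they are also equivalent to: `W` is not of general type.

So for all projective manifolds `X` which are birational to such an image `W`, `κ(X) = -∞` implies
that `X` is uniruled, and therefore it has a Gauduchon metric with positive total scalar curvature.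

Proof. Let `ω` be the residue form on `V`. If `V ⇢ W` does not factor through `V ⇢ V'` then the
subfield `F = ℂ(W)(t)` of `ℂ(V)` is larger than `ℂ(t)`, so its codegree `c` is a divisor of `b` smaller
than `b`, and for some `j < c` the trace of `y ^ j ω` on the variety with the function field `F` is not
zero. The degree of `F` over `ℂ(W)` is `r / c ≤ M + 1`, and `t` separates the points of the fibres, so
the traces on `W` of the forms `A(t) x ^ u y ^ j Res`, where `A` has degree at most `M`, are not all
zero (`Pool/Agent/R882/COver.lean`, the criterion of `MP_e06174_ag.ImagesOverUniruled` of this team).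
-/

set_option autoImplicit false
set_option linter.overlappingInstances false
set_option maxHeartbeats 4000000
set_option synthInstance.maxHeartbeats 400000

open FF Module Pool.Agent Pool.Agent.W602.GT Pool.Agent.R885
open Pool.Agent.W619.PQ (IsUniruled)

namespace Pool.Agent.Results.MP_23b606_ag.ImagesOverUniruled

/-- The Laurent polynomials `f l` are nondegenerate: the initial parts `ini v (f l)` have linearly
independent logarithmic gradients at all their common zeros in the torus. -/
def Nondegenerate {r q : ℕ} (f : Fin q → (Fin r → ℤ) →₀ ℂ) : Prop :=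
  ∀ v : Fin r → ℤ, ∀ c : Fin r → ℂ, (∀ i, c i ≠ 0) → (∀ l, ev c (ini v (f l)) = 0) →
    LinearIndependent ℂ fun l => gr c (ini v (f l))

/-- `x` is the generic point of a subvariety, with function field `K`, of the set of common zeros
of the `f l` in the torus `(ℂ^*) ^ r`. -/
def IsGenericPoint {K : Type} [Field K] [Algebra ℂ K] {r q : ℕ} (f : Fin q → (Fin r → ℤ) →₀ ℂ)
    (x : Fin r → K) : Prop :=
  (∀ i, x i ≠ 0) ∧ (∀ l, ev x (f l) = 0) ∧ IntermediateField.adjoin ℂ (Set.range x) = ⊤

/-- The integral vector `u` is in the Fine interior of the Minkowski sum of the Newton polytopes of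
the `f l`. -/
def InFine {r q : ℕ} (f : Fin q → (Fin r → ℤ) →₀ ℂ) (u : Fin r → ℤ) : Prop :=
  ∀ v : Fin r → ℤ, v ≠ 0 → 1 + ∑ l, mn v (f l) ≤ u ⬝ᵥ v

/-- For all divisors `c < b` of `b` there is a column of length `c` and of width `M`,
`r ≤ c (M + 1)`, in the Fine interior, in the direction `v`. -/
def HasColumns {m q N : ℕ} (f : Fin q → (Fin m → ℤ) →₀ ℂ) (v : Fin m → ℤ)
    (w : Fin N → Fin m → ℤ) (b r : ℕ) : Prop :=
  ∀ c : ℕ, c ∣ b → c < b → ∃ (M : ℕ) (u : Fin m → ℤ), r ≤ c * (M + 1) ∧
    ∀ j < c, InFine f (u + (j : ℤ) • v) ∧ ∀ l, InFine f (u + (j : ℤ) • v + (M : ℤ) • w l)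

/-- The geometric genus of the variety with the function field `L` is zero. -/
def GenusZero (L : Type) [Field L] [Algebra ℂ L] (n : ℕ) : Prop :=
  ∀ ω : (Fin n → Derivation ℂ L L) → L, IsPluri 1 ω →
    (∀ P : Place ℂ L, Divisorial n P → RegAt P ω) → ∀ D, ω D = 0

/-- **Images of nondegenerate complete intersections over a uniruled variety.** Let `V` be a
component, of dimension `n`, of the set of common zeros of a nondegenerate system `f`, with function
field `K` and generic point `x`, let `t l` and `y` be the monomials with the exponents `w l` and `v`,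
`K = ℂ(t)(y)` finite over `ℂ(t)`, and let the image of `V` under `t` be uniruled. Let `V ⇢ W` be a
dominant rational map of finite degree, `L` the function field of `W`. If there are columns for
`[K : L]` in the Fine interior then these are equivalent: `p_g(W) = 0`; `κ(W) = -∞`; `K_W` is not
pseudo-effective; `W` is uniruled; `L` is contained in `ℂ(t)`. If there are columns for `2 [K : L]`
then `W` is of general type if and only if `L` is not contained in `ℂ(t)`. -/
theorem result {n q N : ℕ} (hn : 1 ≤ n) {f : Fin q → (Fin (n + q) → ℤ) →₀ ℂ}
    (hf : Nondegenerate f) {K : Type} [Field K] [Algebra ℂ K] {x : Fin (n + q) → K}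
    (hx : IsGenericPoint f x) (hK : Algebra.trdeg ℂ K = (n : ℕ)) {v : Fin (n + q) → ℤ}
    {w : Fin N → Fin (n + q) → ℤ} {t : Fin N → K} (ht : ∀ l, t l = R885.mono x (w l))
    [FiniteDimensional (IntermediateField.adjoin ℂ (Set.range t)) K]
    (hy : IntermediateField.adjoin (IntermediateField.adjoin ℂ (Set.range t))
      {R885.mono x v} = ⊤)
    (hV : IsUniruled ℂ (IntermediateField.adjoin ℂ (Set.range t)) n)
    (L : Type) [Field L] [Algebra ℂ L] [Algebra L K] [IsScalarTower ℂ L K]
    [FiniteDimensional L K] :
    (HasColumns f v w (Module.finrank (IntermediateField.adjoin ℂ (Set.range t)) K)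
        (Module.finrank L K) →
      [GenusZero L n, ¬ KodGe ℂ L n (fun _ => False) 0, ¬ Psef ℂ L n (fun _ => False),
        IsUniruled ℂ L n,
        ∀ g : L, algebraMap L K g ∈ IntermediateField.adjoin ℂ (Set.range t)].TFAE) ∧
    (HasColumns f v w (Module.finrank (IntermediateField.adjoin ℂ (Set.range t)) K)
        (2 * Module.finrank L K) →
      (¬ GeneralType ℂ L n ↔
        ∀ g : L, algebraMap L K g ∈ IntermediateField.adjoin ℂ (Set.range t))) := by
  classical
  have hess : Algebra.EssFiniteType ℂ K := by
    rw [← IntermediateField.fg_top_iff, ← hx.2.2]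
    exact ⟨Finset.univ.image x, by rw [Finset.coe_image, Finset.coe_univ, Set.image_univ]⟩
  have e : Fin q ⊕ Fin n ≃ Fin (n + q) := Fintype.equivOfCardEq (by
    rw [Fintype.card_sum, Fintype.card_fin, Fintype.card_fin, Fintype.card_fin, add_comm])
  obtain ⟨Ω, hΩ, hne⟩ := Pool.Agent.R882.LT.exists_twisted_col (w := w) hK hx.1 hx.2.2 e hx.2.1
    (fun v => hf v)
  have htE : t = fun l => R885.mono x (w l) := funext ht
  rw [← htE] at hΩ
  have hrange : Set.range (Fin.cons 1 t : Fin (N + 1) → K) = insert 1 (Set.range t) := by
    rw [Fin.range_cons]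
  have hadj : IntermediateField.adjoin ℂ (Set.range (Fin.cons 1 t : Fin (N + 1) → K)) =
      IntermediateField.adjoin ℂ (Set.range t) := by
    rw [hrange]
    apply le_antisymm
    · rw [IntermediateField.adjoin_le_iff]
      rintro g (rfl | hg)
      · exact one_mem _
      · exact IntermediateField.subset_adjoin _ _ hg
    · exact IntermediateField.adjoin.mono _ _ _ (Set.subset_insert _ _)
  have hbase : Pool.Agent.R882.Over.IsBase n (Fin.cons 1 t : Fin (N + 1) → K) := by
    refine ⟨hess, hK, ⟨0, Fin.cons_zero _ _⟩, ?_⟩
    rw [hadj]
    infer_instance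
  have hU : IsUniruled ℂ (IntermediateField.adjoin ℂ
      (Set.range (Fin.cons 1 t : Fin (N + 1) → K))) n := by
    rw [hadj]
    exact hV
  have hpos : ∀ r : ℕ, HasColumns f v w
      (Module.finrank (IntermediateField.adjoin ℂ (Set.range t)) K) r →
      Pool.Agent.R882.Over.Positive n (Fin.cons 1 t : Fin (N + 1) → K) r := by
    intro r hcol F hF
    rw [hadj] at hF
    -- the codegree
    let i1 : Algebra (IntermediateField.adjoin ℂ (Set.range t)) F :=
      (IntermediateField.inclusion hF.le).toRingHom.toAlgebra
    have i2 : IsScalarTower (IntermediateField.adjoin ℂ (Set.range t)) F K :=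
      IsScalarTower.of_algebraMap_eq fun g => rfl
    have i3 : FiniteDimensional F K :=
      Module.Finite.of_restrictScalars_finite (IntermediateField.adjoin ℂ (Set.range t)) F K
    have i4 : Module.Free (IntermediateField.adjoin ℂ (Set.range t)) F :=
      Module.Free.of_divisionRing _ _
    have i5 : Module.Free F K := Module.Free.of_divisionRing _ _
    have hmul := Module.finrank_mul_finrank (IntermediateField.adjoin ℂ (Set.range t)) F K
    have hpos2 : 0 < Module.finrank F K := Module.finrank_pos
    have hpos3 : 0 < Module.finrank (IntermediateField.adjoin ℂ (Set.range t)) K :=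
      Module.finrank_pos
    have hdvd : Module.finrank F K ∣
        Module.finrank (IntermediateField.adjoin ℂ (Set.range t)) K := Dvd.intro_left _ hmul
    have hlt : Module.finrank F K <
        Module.finrank (IntermediateField.adjoin ℂ (Set.range t)) K := by
      refine lt_of_le_of_ne (Nat.le_of_dvd hpos3 hdvd) fun h => ?_
      exact hF.ne (IntermediateField.eq_of_le_of_finrank_eq' hF.le h.symm)
    obtain ⟨M, u, hr, hcol'⟩ := hcol _ hdvd hlt
    refine ⟨M, hr, ?_⟩
    have hyF : IntermediateField.adjoin F {R885.mono x v} = ⊤ := by
      rw [eq_top_iff]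
      intro g _
      have h1 : g ∈ IntermediateField.adjoin (IntermediateField.adjoin ℂ (Set.range t))
          {R885.mono x v} := by
        rw [hy]
        trivial
      have hle : (IntermediateField.adjoin (IntermediateField.adjoin ℂ (Set.range t))
          {R885.mono x v}).toSubfield ≤
          (IntermediateField.adjoin F {R885.mono x v}).toSubfield := by
        change Subfield.closure _ ≤ _
        rw [Subfield.closure_le]
        rintro z (⟨c, rfl⟩ | hz)
        · exact (IntermediateField.adjoin F {R885.mono x v}).algebraMap_mem
            (⟨c, hF.le c.2⟩ : F)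
        · rw [Set.mem_singleton_iff.mp hz]
          exact IntermediateField.mem_adjoin_simple_self _ _
      exact hle h1
    have hΩ1 : IsPluri 1 (fun D => R885.mono x u * Ω D) := by
      obtain ⟨h1, h2⟩ := hcol' 0 hpos2
      have h3 := (hΩ M (u + ((0 : ℕ) : ℤ) • v) h1 h2).1
      rw [Nat.cast_zero, zero_smul, add_zero] at h3
      exact h3
    obtain ⟨j, hj, D, D', hD, htr⟩ := Pool.Agent.R882.LT.col_detect (F := F) (y := R885.mono x v)
      (ω := fun D => R885.mono x u * Ω D) hK hyF
      (fun Z hZ D0 hD0 => mul_ne_zero (R885.mono_ne hx.1 _) (hne Z hZ D0 hD0))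
    have hform : (fun D : Fin n → Derivation ℂ K K => R885.mono x v ^ j *
        (R885.mono x u * Ω D)) = fun D => R885.mono x (u + (j : ℤ) • v) * Ω D := by
      funext D
      rw [R885.mono_add hx.1, R885.mono_zsmul, zpow_natCast]
      ring
    obtain ⟨h1, h2⟩ := hcol' j hj
    have h3 := hΩ M _ h1 h2
    refine ⟨fun D => R885.mono x v ^ j * (R885.mono x u * Ω D), ?_, fun g P hP => ?_,
      D, D', hD, htr⟩
    · rw [hform]
      exact h3.1
    · have h4 := h3.reg g P hP
      have h5 : ∀ D : Fin n → Derivation ℂ K K, R885.mono x v ^ j * (R885.mono x u * Ω D) =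
          R885.mono x (u + (j : ℤ) • v) * Ω D := fun D => congrFun hform D
      simp only [h5]
      exact h4
  obtain ⟨h1, h2⟩ := Pool.Agent.R882.Over.over_uniruled hn hbase hU L
  have hfac : Pool.Agent.R882.Over.FactorsThrough L (Fin.cons 1 t : Fin (N + 1) → K) ↔
      ∀ g : L, algebraMap L K g ∈ IntermediateField.adjoin ℂ (Set.range t) := by
    unfold Pool.Agent.R882.Over.FactorsThrough
    rw [hadj]
  rw [hfac] at h1 h2
  exact ⟨fun h => h1 (hpos _ h), fun h => h2 (hpos _ h)⟩

end Pool.Agent.Results.MP_23b606_ag.ImagesOverUniruled
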