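import Pool.Agent.R885.W9

/-!
# Manifolds of Kodaira dimension -∞ commensurable with nondegenerate pairs

Let `f 1, ..., f q` and `h 1, ..., h p` be Laurent polynomials in `n + q` variables over `ℂ`,
`n ≥ 1`, and let `X₀` be an irreducible component, of dimension `n`, of the set of the common zeros
of the `f l` in the torus `(ℂ^*)^(n + q)`; its function field is `L`, the `x i` are the coordinates on
`X₀`. Suppose that the pair is nondegenerate along `X₀`: for every integral vector `v` and every
subset `V` of `1, ..., p` the logarithmic gradients of the initial parts `ini v (f l)`, `ini v (h j)`,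
`j ∈ V` (the sums of the terms on which the linear function `v` is minimal) are linearly independent
at the points of the initial degeneration of `X₀` in the direction `v` (the common zeros in the torus
of the `ini v g`, for all `g` which vanish on `X₀`) at which the `ini v (h j)`, `j ∈ V`, vanish. This
is true if the systems are nondegenerate in the sense of Khovanskii, so for generic coefficients.

Let `c j` be rational numbers in `[0, 1]`, the multiplicities of the divisors `h j = 0`, and let `A`
be a weight: a function on the nonzero integral vectors with values in `[0, 1]`, with bounded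
denominators, such that `1 - A` is subadditive and `A (g v) ≤ g A v`, for instance a constant, or `1` on
a convex cone and `0` outside. It gives the multiplicities `1 - A` along the divisors at infinity:
`bdry A c x h` is `1 - A v` for the divisors such that the vector `v` of the orders of the `x i` is not
zero, and otherwise `c j` along the components of `h j = 0`. There is no condition on the Newton
polytopes, on the weight and on the coefficients; all multiplicities may be `1`.

Let `Δ₀` be the boundary on `X₀` with these multiplicities; it may be zero. The varieties `X` of the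
theorem are the projective varieties which are commensurable with `(X₀, Δ₀)`: the function field `K`
of `X` and the function field `L` of `X₀` have a common finite extension `M`, to which `K_X` and
`K_{X₀} + Δ₀` have the same pull-back, and the log discrepancies of `X` are at least the ones given by
`Δ₀`. For instance `X` may be

* a manifold, or a variety with canonical singularities, birational to `X₀` (`K = L = M`, `Δ₀ = 0`);
* a variety with canonical singularities with a finite Galois cover which is birational to `X₀` and
  unramified at the prime divisors of `X` (`L = M`, `Δ₀ = 0`), so if `X` is a manifold, it has a finite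
  etale Galois cover birational to `X₀`;
* a cover of such a variety which is branched along the components of `Δ₀` (`K = M`): the
  multiplicity of `Δ₀` is `1 - 1 / e'` if `e'` is the ramification index.

These varieties are log canonical.

**Theorem.** If `κ(X) = -∞`, then `K_X` is not pseudoeffective. By the known equivalence, which is not
formalized here, the projective manifolds `X` with `κ(X) = -∞` have a Gauduchon metric of positive
total scalar curvature.

The proof is by induction on `q`, for the systems of the class `VSys`: see
`Pool.Agent.Results.MP_2c56d9_ag.NondegenerateLogPairs`. Sections are pulled back to a Galois cover of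
`X` and `X₀`; conversely, the elementary symmetric functions of the translates of sections on the
cover are sections of multiples of the divisor (`w0_desc`), and the traces of the products of a
section with the elements of a basis show that the numerical dimension of the cover is not larger
(`cov_num`).
-/

set_option autoImplicit false

open FF IntermediateField Pool.Agent Pool.Agent.W602.GT Pool.Agent.Y172 Pool.Agent.Y191
  Pool.Agent.Y174 Pool.Agent.R885

namespace Pool.Agent.Results.MP_23b606_ag.NondegenerateEtaleQuotients

section

variable {L : Type} [Field L] [Algebra ℂ L]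

/-- `x` is the generic point of a subvariety `X₀` of dimension `n`, with function field `L`, of the
set of common zeros of the `f l` in the torus `(ℂ^*) ^ r`, not contained in the sets `h j = 0`. -/
def IsGenericPoint {r q p : ℕ} (n : ℕ) (f : Fin q → (Fin r → ℤ) →₀ ℂ)
    (h : Fin p → (Fin r → ℤ) →₀ ℂ) (x : Fin r → L) : Prop :=
  (∀ i, x i ≠ 0) ∧ (∀ l, ev x (f l) = 0) ∧ (∀ j, ev x (h j) ≠ 0) ∧
    IntermediateField.adjoin ℂ (Set.range x) = ⊤ ∧ Algebra.trdeg ℂ L = (n : ℕ)

/-- The pair is nondegenerate along the subvariety `X₀` of the torus with the generic point `x`: for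
all subsets `V` and all integral vectors `v`, the logarithmic gradients of the initial parts of the
`f l` and of the `h j`, `j ∈ V`, are linearly independent at the points `c` of the initial
degeneration of `X₀` at which the initial parts of the `h j`, `j ∈ V`, vanish. -/
def Nondegenerate {r q p : ℕ} (f : Fin q → (Fin r → ℤ) →₀ ℂ) (h : Fin p → (Fin r → ℤ) →₀ ℂ)
    (x : Fin r → L) : Prop :=
  ∀ (V : Finset (Fin p)) (v : Fin r → ℤ) (c : Fin r → ℂ), (∀ i, c i ≠ 0) →
    (∀ g : (Fin r → ℤ) →₀ ℂ, ev x g = 0 → ev c (ini v g) = 0) →
      (∀ j ∈ V, ev c (ini v (h j)) = 0) →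
        LinearIndependent ℂ (Sum.elim (fun l => gr c (ini v (f l))) fun j : V => gr c (ini v (h j)))

/-- The function `A` on the integral vectors is a weight: on the nonzero vectors it is at least `0`,
at most `1`, with bounded denominators, `A (v + w) ≥ A v + A w - 1` and `A (g v) ≤ g A v`. -/
structure IsWeight {r : ℕ} (A : (Fin r → ℤ) → ℚ) : Prop where
  nonneg : ∀ v, v ≠ 0 → 0 ≤ A v
  le_one : ∀ v, A v ≤ 1
  denom : ∃ D : ℕ, 1 ≤ D ∧ ∀ v, ∃ z : ℤ, (D : ℚ) * A v = z
  add : ∀ v w, v ≠ 0 → w ≠ 0 → v + w ≠ 0 → A v + A w - 1 ≤ A (v + w)
  smul : ∀ (g : ℤ) v, 0 < g → v ≠ 0 → A (g • v) ≤ g * A v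

end

section

variable {K L : Type} [Field K] [Field L] [Algebra ℂ K] [Algebra ℂ L]

/-- `X` is a projective variety with function field `K` which is commensurable with the pair
`(X₀, Δ₀)` with function field `L`, where `b` gives the multiplicities of `Δ₀`: the pull-backs of `K_X`
and of `K_{X₀} + Δ₀` to the common finite extension `M` of `K` and `L` coincide. That is, if the place
`P'` of `M` lies over the prime divisor `P` of `X` and over the place `Q` of `L`, with the ramification
indices `e` and `e'`, then `e = e' (1 - b Q)`. Moreover, for all divisors `P` over `X`, the log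
discrepancy of `X` along `P` is at least `e' (1 - b Q) / e`. -/
structure IsCommensurable (M : Type) [Field M] [Algebra ℂ M] [Algebra K M] [Algebra L M]
    (b : Place ℂ L → ℚ) {N : ℕ} (y : Fin (N + 1) → K) (n : ℕ) : Prop where
  normal : NormalModel y
  mult : ∀ P, IsPrimeDivisor y P → ∀ (P' : Place ℂ M) (Q : Place ℂ L) (e e' : ℕ),
    LiesOn P' P e → LiesOn P' Q e' → (e : ℚ) = e' * (1 - b Q)
  disc : ∀ P, Divisorial n P → ∀ (P' : Place ℂ M) (Q : Place ℂ L) (e e' : ℕ),
    LiesOn P' P e → LiesOn P' Q e' → LogDisc y n 0 P (e' * (1 - b Q) / e)

end

/-- `K_X` is not pseudoeffective: for all effective divisors `A`, the divisors `m K_X + A` have only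
the section zero for large `m`. -/
def NotPseudoEffective {K : Type} [Field K] [Algebra ℂ K] {N : ℕ} (y : Fin (N + 1) → K) (n : ℕ) :
    Prop :=
  ∀ A, Effective y A → ∃ M0 : ℕ, ∀ m : ℕ, M0 ≤ m → h0 y n m (m • 0 + A) = 0

/-- **Kodaira dimension `-∞`.** Let `n ≥ 1`, let `f`, `h` be Laurent polynomials in `n + q` variables,
let `x` be the generic point of a component `X₀` of the set of common zeros of the `f l` in the
torus, with function field `L`, such that the pair is nondegenerate along `X₀`, let `A` be a weight
and `0 ≤ c j ≤ 1`, and let `Δ₀` be the boundary with the multiplicities `bdry A c x h`. Let `X` be a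
projective variety with function field `K`, and let `M` be a finite extension of `K` and of `L` such
that the pull-backs of `K_X` and of `K_{X₀} + Δ₀` to `M` coincide.
If `κ(X) = -∞`, then `K_X` is not pseudoeffective. -/
theorem result {n q p : ℕ} (hn : 1 ≤ n) {f : Fin q → (Fin (n + q) → ℤ) →₀ ℂ}
    {h : Fin p → (Fin (n + q) → ℤ) →₀ ℂ} {K L M : Type} [Field K] [Field L] [Field M]
    [Algebra ℂ K] [Algebra ℂ L] [Algebra ℂ M] [Algebra K M] [Algebra L M] [IsScalarTower ℂ K M]
    [IsScalarTower ℂ L M] [FiniteDimensional K M] [FiniteDimensional L M] {x : Fin (n + q) → L}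
    (hx : IsGenericPoint n f h x) (hfh : Nondegenerate f h x) {A : (Fin (n + q) → ℤ) → ℚ}
    (hA : IsWeight A) {c : Fin p → ℚ} (hc : ∀ j, 0 ≤ c j ∧ c j ≤ 1) {N : ℕ}
    {y : Fin (N + 1) → K} (hy : IsCommensurable M (bdry A c x h) y n)
    (hκ : kodairaDim y n 0 = ⊥) : NotPseudoEffective y n := by
  have hq0 : Effective y (0 : Place ℂ K → ℚ) := ⟨fun _ _ => le_rfl, by simp⟩
  obtain ⟨hq, hv⟩ := R885.N.qfinalY (M := M) (Δ := 0) hn hx.2.2.2.2 hx.1 hx.2.2.2.1 hx.2.1 hx.2.2.1
    hfh ⟨hA.nonneg, hA.le_one, hA.denom, hA.add, hA.smul⟩ hc
    ⟨hy.normal, hq0, fun P hP P' Q e e' h1 h2 => by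
      rw [Pi.zero_apply, sub_zero, mul_one]
      exact hy.mult P hP P' Q e e' h1 h2, hy.disc⟩
  rcases hq.equal hy.normal hq0 with ⟨d, hd, h1, -⟩ | ⟨-, h1⟩
  · rw [hκ] at h1
    exact absurd h1.symm (WithBot.coe_ne_bot)
  · exact fun A hA => (h1 A hA).1

end Pool.Agent.Results.MP_23b606_ag.NondegenerateEtaleQuotients
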